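import Pool.Agent.K7.H29.PP.Main

/-!
# Every projective pile embeds in a free profinite product

The definitions are in `Pool/Agent/K7/H29/PP/Defs.lean` (`ProfiniteGroup`, `ProfiniteSpace`, `RigidEpi`,
`ProjectivePile`, `ConvergesToOne`, `IsFreeProfinite`, `IsFreeProfiniteProduct`). Groups act from the
left: a right action `t ^ g` corresponds to the left action `g • t = t ^ (g⁻¹)`.

Proof. Let `M` be the group of all functions from the set of the clopen subsets `V` of `T` to the
group of order two, with the product topology. `G` permutes the clopen sets and acts continuously
on `M`; the semidirect product `E = M ⋊ G` acts transitively on `M`, and the stabiliser of `1` is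
`G`. The map `χ` which sends `t` to the characteristic function of `{V | t ∈ V}` is an injective
`G`-map from `T` to `M`. The basis elements `e_V` of `M` converge to `1` and, together with `G`,
generate `E`. So there is an epimorphism `H = G ⨿ F → E` with `F` free on the set of all `V`; it is
the identity on `G`, and `(H, G \ H) → (E, M)` is a rigid epimorphism of profinite piles. The
morphism `(G, T) → (E, M)` lifts to `(H, G \ H)`, since `(G, T)` is projective (rigid epimorphisms of
profinite piles onto `(G, T)` split: Zorn's lemma and finite steps).
-/

set_option autoImplicit false

namespace Pool.Agent.Results.MP_34922e_al.ProjectivePiles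

open Pool.Agent.K7.H29.PP

universe u

/-- Let `(G, T)` be a projective pile (`G` a profinite group acting continuously on the profinite
space `T`). Then there are a free profinite group `F`, with a basis `b` indexed by the set of clopen
subsets of `T`, the free profinite product `H = G ⨿ F`, with the canonical maps `i : G → H` and
`j : F → H`, and an injective continuous homomorphism `e : G → H` such that for every `t ∈ T` there
is an `h ∈ H` for which the stabiliser `G_t` is the preimage under `e` of `h i(G) h⁻¹`. -/
theorem result (G T : Type u) [Group G] [TopologicalSpace G] [ProfiniteGroup G]
    [TopologicalSpace T] [ProfiniteSpace T] [MulAction G T] [ContinuousSMul G T]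
    (hproj : ProjectivePile G T) :
    ∃ (F H : Type u) (_ : Group F) (_ : TopologicalSpace F) (_ : ProfiniteGroup F) (_ : Group H)
      (_ : TopologicalSpace H) (_ : ProfiniteGroup H) (b : {V : Set T // IsClopen V} → F)
      (i : G →* H) (j : F →* H), IsFreeProfinite b ∧ IsFreeProfiniteProduct i j ∧
      ∃ e : G →* H, Continuous e ∧ Function.Injective e ∧
        ∀ t : T, ∃ h : H, ∀ g : G, g • t = t ↔ ∃ a : G, e g = h * i a * h⁻¹ :=
  main hproj

end Pool.Agent.Results.MP_34922e_al.ProjectivePiles
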